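import Pool.Agent.U239.LQ.Low
import Pool.Agent.U239.LQ.Iso

/-!
# The Lang–Trotter formula for almost all traces and all curves with complex multiplication by an order of `ℚ(i)`

Every elliptic curve over `ℚ` with `j = 1728` or `j = 287496` (complex multiplication by `ℤ[i]` or `ℤ[2 i]`) is isomorphic
over `ℚ` to `y² = x³ - D x` or to `y² = x³ - 11 t² x + 14 t³`. For each of these curves and almost all traces `r`, `|r| ≤ R`,
the number of the primes `p ≤ x` with `a_p = r` is given by the formula of Lang and Trotter, with an explicit constant,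
uniformly for `R ^ (2 + ε) ≤ x ≤ R ^ (3 - ε)`. In particular, for almost all admissible traces `r` the least prime `p` with
`a_p = r` is at most `R ^ (2 + ε)` (and `a_p = r` implies `p ≥ r² / 4`). (The result `CongruentNumberCurves` of the starting
point is the asymptotic formula for the curves `y² = x³ - D² x`.)

Proof: for `p = a² + m²` the trace of `y² = x³ - D x` at `p` is `2 a` if and only if `z = a + m i` satisfies
`z (D / z)₄ ≡ 1` modulo `2 + 2 i` (Jacobi sums, `Y699.Qg`, `R441.Q4`); by the quartic reciprocity law (`R441.Q4`) this is a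
condition for `z` modulo `16 D`; and the primes `a² + m²` with `m` in a class are counted for almost all `a` by the theorem of
Fouvry and Iwaniec in classes and for thin sets of `a` (project GN, `N782.GN.c_mainx`). The curves with `j = 287496` are
isogenous to the curves `y² = x³ - t² x`.
-/

set_option autoImplicit false

namespace Pool.Agent.Results.MP_d74fca_nt.GaussianCMCurves

open Finset Filter Topology

/-- The curve `y² = x³ + A x + B` is one of the curves `y² = x³ - D x` with `D ≠ 0`, or one of the curves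
`y² = x³ - 11 t² x + 14 t³` with `t ≠ 0` and `D = t²`. -/
def Curve (A B D : ℤ) : Prop :=
  D ≠ 0 ∧ ((A = -D ∧ B = 0) ∨ ∃ t : ℤ, A = -11 * t ^ 2 ∧ B = 14 * t ^ 3 ∧ D = t ^ 2)

/-- The number of the solutions `(x, y)` of `y² = x³ + A x + B` modulo `p`, which is `|E(𝔽_p)| - 1`. -/
def points (A B : ℤ) (p : ℕ) : ℕ :=
  ((range p ×ˢ range p).filter
    (fun xy : ℕ × ℕ => (p : ℤ) ∣ (xy.2 : ℤ) ^ 2 - ((xy.1 : ℤ) ^ 3 + A * (xy.1 : ℤ) + B))).card

/-- The trace `a_p = p + 1 - |E(𝔽_p)|`. -/
def trace (A B : ℤ) (p : ℕ) : ℤ := (p : ℤ) - points A B p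

/-- The number of the primes `p ≤ x` which do not divide `2 D` and have `a_p = r`. -/
noncomputable def count (A B D : ℤ) (r : ℤ) (x : ℝ) : ℕ :=
  ((Icc 1 ⌊x⌋₊).filter (fun p : ℕ => p.Prime ∧ ¬ (p : ℤ) ∣ 2 * D ∧ trace A B p = r)).card

open Classical in
/-- The number of the classes `m` modulo `16 |D|` with `z (D / z)₄ ≡ 1` modulo `2 + 2 i` for `z = r / 2 + m i` (with `z` odd
and coprime to `D`; the quartic residue symbol `(D / z)₄` is `R441.Q4.Q z D`), if `r` is even; otherwise `0`. -/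
noncomputable def classes (D r : ℤ) : ℕ :=
  if r % 2 = 0 then ((range (16 * D.natAbs)).filter (fun m : ℕ => Pool.Agent.U239.LQ.PD D (r / 2) m)).card else 0

/-- The partial products over the primes `3 ≤ p ≤ z` which do not divide `D r`. -/
noncomputable def product (D r : ℤ) (z : ℕ) : ℝ :=
  ∏ p ∈ (Icc 3 z).filter (fun p : ℕ => p.Prime ∧ ¬ (p : ℤ) ∣ D * r),
    (1 - ((ZMod.χ₄ (p : ZMod 4) : ℤ) : ℝ) / ((p : ℝ) - 1))

/-- `c = c_{D, r}`: the partial products, times `classes D r / φ(16 |D|)`, converge to `c`. -/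
def IsConstant (D r : ℤ) (c : ℝ) : Prop :=
  Tendsto (fun z => (classes D r : ℝ) / (Nat.totient (16 * D.natAbs) : ℝ) * product D r z) atTop (𝓝 c)

/-- The conclusion for the trace `r`: there is a number `c ≥ 0`, the constant of `D` and `r`, which is positive if and only if
`classes D r` is positive, and `|π_r(x) - c ∫_2^√x dt / (2 log t)| ≤ √x / (log x) ^ k` for all real `x` from
`R ^ (2 + ε)` to `R ^ (3 - ε)`; and if `classes D r` is positive there is a prime `p ≤ R ^ (2 + ε)`, not dividing `2 D`, with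
`a_p = r`. -/
def Good (A B D : ℤ) (ε : ℝ) (k : ℕ) (R : ℝ) (r : ℤ) : Prop :=
  (∃ c : ℝ, 0 ≤ c ∧ (0 < c ↔ 0 < classes D r) ∧ IsConstant D r c ∧ ∀ x : ℝ, R ^ (2 + ε) ≤ x → x ≤ R ^ (3 - ε) →
    |(count A B D r x : ℝ) - c * ∫ t in (2 : ℝ)..(Real.sqrt x), 1 / (2 * Real.log t)| ≤ Real.sqrt x / Real.log x ^ k) ∧
  (0 < classes D r → ∃ p : ℕ, p.Prime ∧ (p : ℝ) ≤ R ^ (2 + ε) ∧ ¬ (p : ℤ) ∣ 2 * D ∧ trace A B p = r)

open Classical in
/-- The number of the integers `r` with `|r| ≤ R` for which the conclusion fails. -/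
noncomputable def exceptions (A B D : ℤ) (ε : ℝ) (k : ℕ) (R : ℝ) : ℕ :=
  ((Icc ⌈-R⌉ ⌊R⌋).filter (fun r : ℤ => ¬ Good A B D ε k R r)).card

open Pool.Agent.N782.GN Pool.Agent.U239.LQ

theorem trace_eq {A B D : ℤ} (h : Curve A B D) {p : ℕ} (hp : p.Prime) (hD : ¬ (p : ℤ) ∣ 2 * D) : trace A B p = tr D p := by
  have h2 : p ≠ 2 := by
    rintro rfl
    exact hD (dvd_mul_right _ _)
  rcases h.2 with ⟨rfl, rfl⟩ | ⟨t, rfl, rfl, rfl⟩
  · exact trAB_D hp D h2
  · refine trAB_t hp t h2 fun hd => hD ?_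
    rw [sq]
    exact Dvd.dvd.mul_left (Dvd.dvd.mul_left hd _) _

theorem count_eq {A B D : ℤ} (h : Curve A B D) (r : ℤ) (x : ℝ) : count A B D r x = piD D r x := by
  unfold count piD
  congr 1
  ext p
  simp only [mem_filter, mem_Icc, mem_range]
  constructor
  · rintro ⟨⟨h1, h2⟩, h3, h4, h5⟩
    refine ⟨by omega, h3, h4, ?_⟩
    rw [← trace_eq h h3 h4]
    exact h5
  · rintro ⟨h1, h2, h3, h4⟩
    refine ⟨⟨h2.pos, by omega⟩, h2, h3, ?_⟩
    rw [trace_eq h h2 h3]
    exact h4

theorem classes_eq (D a : ℤ) : classes D (2 * a) = (cl (16 * D.natAbs) (PD D) a).card := by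
  classical
  unfold classes cl
  rw [if_pos (by omega)]
  have h1 : 2 * a / 2 = a := by omega
  rw [h1]

/-- the factor at an odd prime is positive -/
theorem factor_pos {p : ℕ} (hp : p.Prime) (h2 : p ≠ 2) : 0 < 1 - ((ZMod.χ₄ (p : ZMod 4) : ℤ) : ℝ) / ((p : ℝ) - 1) := by
  have h3 : 3 ≤ p := by
    have := hp.two_le
    omega
  have h3' : (3 : ℝ) ≤ p := by exact_mod_cast h3
  have h4 : ((ZMod.χ₄ (p : ZMod 4) : ℤ) : ℝ) ≤ 1 := by
    have : (ZMod.χ₄ (p : ZMod 4) : ℤ) ≤ 1 := by
      rw [ZMod.χ₄_nat_eq_if_mod_four]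
      split_ifs <;> norm_num
    exact_mod_cast this
  rw [sub_pos, div_lt_one (by linarith)]
  linarith

/-- the constant -/
theorem constant (D : ℤ) (hD : D ≠ 0) (a : ℤ) (ha : a ≠ 0) :
    0 ≤ cst (16 * D.natAbs) (PD D) a ∧ (0 < cst (16 * D.natAbs) (PD D) a ↔ 0 < classes D (2 * a)) ∧
      IsConstant D (2 * a) (cst (16 * D.natAbs) (PD D) a) := by
  set q : ℕ := 16 * D.natAbs with hq
  have hq0 : 0 < q := by omega
  set l : ℤ := (a.natAbs : ℤ) with hl
  have hl0 : l ≠ 0 := by omega
  obtain ⟨hlim, hpos⟩ := c_ssl l hl0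
  have hσ : (if 0 < a then (1 : ℤ) else -1) * l = a := by
    split_ifs with h
    · omega
    · omega
  have hcst : cst q (PD D) a = (classes D (2 * a) : ℝ) / (q : ℝ) * (gq q l * SS l) := by
    unfold cst sD
    rw [← hl, hσ, classes_eq D a]
  set F : Finset ℕ := q.primeFactors.filter (fun p : ℕ => p ≠ 2 ∧ ¬ (p : ℤ) ∣ l) with hF
  set f : ℕ → ℝ := fun p => 1 - ((ZMod.χ₄ (p : ZMod 4) : ℤ) : ℝ) / ((p : ℝ) - 1) with hf
  have hFpos : 0 < ∏ p ∈ F, f p := by
    apply prod_pos
    intro p hp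
    rw [hF, mem_filter] at hp
    exact factor_pos (Nat.prime_of_mem_primeFactors hp.1) hp.2.1
  have h4D : (0 : ℝ) < (q : ℝ) := by exact_mod_cast hq0
  have hφ : (0 : ℝ) < (Nat.totient q : ℝ) := by
    have : 0 < Nat.totient q := Nat.totient_pos.2 hq0
    exact_mod_cast this
  have hgq : gq q l = (q : ℝ) / (Nat.totient q : ℝ) / ∏ p ∈ F, f p := rfl
  have hcst2 : cst q (PD D) a = (classes D (2 * a) : ℝ) / (Nat.totient q : ℝ) * (SS l / ∏ p ∈ F, f p) := by
    rw [hcst, hgq]
    field_simp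
  have hK : 0 < SS l / ∏ p ∈ F, f p := div_pos hpos hFpos
  refine ⟨?_, ?_, ?_⟩
  · rw [hcst2]
    positivity
  · rw [hcst2]
    constructor
    · intro h
      by_contra hc
      have h0 : classes D (2 * a) = 0 := by omega
      rw [h0] at h
      simp at h
    · intro h
      have h' : (0 : ℝ) < (classes D (2 * a) : ℝ) := by exact_mod_cast h
      positivity
  · unfold IsConstant
    rw [hcst2]
    apply Tendsto.const_mul
    have hev : (fun z => pp l z / ∏ p ∈ F, f p) =ᶠ[atTop] product D (2 * a) := by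
      filter_upwards [eventually_ge_atTop q] with z hz
      rw [div_eq_iff hFpos.ne']
      unfold pp product
      rw [← prod_union]
      · refine prod_congr ?_ (fun _ _ => rfl)
        ext p
        simp only [hF, mem_union, mem_filter, mem_Icc, Nat.mem_primeFactors]
        have key : p.Prime → p ≠ 2 → ((p : ℤ) ∣ D * (2 * a) ↔ (p : ℤ) ∣ D ∨ (p : ℤ) ∣ l) := by
          intro hp hp2
          have hpz : Prime (p : ℤ) := Nat.prime_iff_prime_int.1 hp
          rw [hpz.dvd_mul, hpz.dvd_mul]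
          have e3 : (p : ℤ) ∣ (a.natAbs : ℤ) ↔ (p : ℤ) ∣ a := by
            rw [Int.dvd_natAbs]
          rw [hl, e3]
          have e4 : ¬ (p : ℤ) ∣ 2 := by
            intro h
            have h5 : p ∣ 2 := by exact_mod_cast h
            exact hp2 ((Nat.prime_dvd_prime_iff_eq hp Nat.prime_two).1 h5)
          tauto
        have key2 : p.Prime → p ≠ 2 → (p ∣ q ↔ (p : ℤ) ∣ D) := by
          intro hp hp2
          rw [hq, hp.dvd_mul]
          have e5 : ¬ p ∣ 16 := by
            intro h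
            have h5 : p ∣ 2 ^ 4 := by simpa using h
            exact hp2 ((Nat.prime_dvd_prime_iff_eq hp Nat.prime_two).1 (hp.dvd_of_dvd_pow h5))
          rw [Int.natCast_dvd]
          tauto
        constructor
        · rintro ⟨⟨h3, hz3⟩, hp, hl3⟩
          have hp2 : p ≠ 2 := by omega
          by_cases hd : (p : ℤ) ∣ D
          · right
            exact ⟨⟨hp, (key2 hp hp2).2 hd, by omega⟩, hp2, hl3⟩
          · left
            refine ⟨⟨h3, hz3⟩, hp, ?_⟩
            rw [key hp hp2]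
            tauto
        · rintro (⟨⟨h3, hz3⟩, hp, hd⟩ | ⟨⟨hp, hd, -⟩, hp2, hl3⟩)
          · have hp2 : p ≠ 2 := by omega
            rw [key hp hp2] at hd
            exact ⟨⟨h3, hz3⟩, hp, fun h => hd (Or.inr h)⟩
          · have h5 := hp.two_le
            have h6 : p ≤ q := Nat.le_of_dvd hq0 hd
            exact ⟨⟨by omega, by omega⟩, hp, hl3⟩
      · rw [disjoint_left]
        intro p hp1 hp2
        simp only [hF, mem_filter, mem_Icc, Nat.mem_primeFactors] at hp1 hp2
        obtain ⟨-, hp, hd⟩ := hp1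
        obtain ⟨⟨-, hd4, -⟩, hp3, -⟩ := hp2
        apply hd
        have h5 : p ∣ D.natAbs := by
          rcases (hp.dvd_mul).1 hd4 with h | h
          · exfalso
            have h5 : p ∣ 2 ^ 4 := by simpa using h
            exact hp3 ((Nat.prime_dvd_prime_iff_eq hp Nat.prime_two).1 (hp.dvd_of_dvd_pow h5))
          · exact h
        exact Dvd.dvd.mul_right (Int.natCast_dvd.2 h5) _
    exact Tendsto.congr' hev (hlim.div_const _)

/-- the least prime -/
theorem least {A B D : ℤ} (h : Curve A B D) (a : ℤ) (ha : a ≠ 0) (x y : ℝ) (hx : 0 ≤ x) (hxy : x ≤ y)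
    (hp : 0 < piP (PD D) a x) :
    ∃ p : ℕ, p.Prime ∧ (p : ℝ) ≤ y ∧ ¬ (p : ℤ) ∣ 2 * D ∧ trace A B p = 2 * a := by
  have e2 : count A B D (2 * a) x = piP (PD D) a x := by
    rw [count_eq h, piD_eq D a x hx ha]
    rfl
  rw [← e2] at hp
  unfold count at hp
  obtain ⟨p, hp⟩ := card_pos.1 hp
  rw [mem_filter, mem_Icc] at hp
  obtain ⟨⟨-, h2⟩, h3, h4, h5⟩ := hp
  exact ⟨p, h3, ((Nat.le_floor_iff hx).1 h2).trans hxy, h4, h5⟩

/-- For every curve `y² = x³ - D x` and every curve `y² = x³ - 11 t² x + 14 t³`, all `ε > 0`, `k` and all large `R`, all but at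
most `R / (log R) ^ k` of the integers `r` with `|r| ≤ R` satisfy the formula of Lang and Trotter, for all `x` from
`R ^ (2 + ε)` to `R ^ (3 - ε)`, and are traces at a prime `p ≤ R ^ (2 + ε)` if they are admissible. -/
theorem result (A B D : ℤ) (h : Curve A B D) (ε : ℝ) (hε : 0 < ε) (k : ℕ) :
    ∃ R₀ : ℝ, ∀ R : ℝ, R₀ ≤ R → (exceptions A B D ε k R : ℝ) ≤ R / Real.log R ^ k := by
  classical
  have hD := h.1
  set ε' : ℝ := min ε (1 / 2) with hε'
  have hε'0 : 0 < ε' := lt_min hε (by norm_num)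
  have hε'1 : ε' ≤ ε := min_le_left _ _
  have hε'2 : ε' ≤ 1 / 2 := min_le_right _ _
  have hN := cnd_PD hD
  obtain ⟨R₁, h1⟩ := lt_all hN ε' (k + 3) hε'0
  obtain ⟨R₃, h3'⟩ := exists_small (P := PD D) hN.hq ε' (k + 3) hε'0 hε'2 (by omega)
  obtain ⟨R₂, h2⟩ := eventually_atTop.1 (((ev_log_rpow 1 one_pos k 2).and (eventually_ge_atTop (16 : ℝ))))
  refine ⟨max (max R₁ R₂) R₃, fun R hR => ?_⟩
  have hR1 : R₁ ≤ R := ((le_max_left R₁ R₂).trans (le_max_left _ _)).trans hR
  have hR3 : R₃ ≤ R := (le_max_right _ _).trans hR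
  obtain ⟨h3, hR16⟩ := h2 R (((le_max_right R₁ R₂).trans (le_max_left _ _)).trans hR)
  rw [Real.rpow_one] at h3
  have hR0 : 0 < R := by linarith
  have hRone : 1 ≤ R := by linarith
  have key := h1 R hR1
  have hlog2 : 2 ≤ Real.log R := by
    rw [Real.le_log_iff_exp_le hR0]
    have e1 := Real.exp_one_lt_d9
    have e2 : Real.exp 2 = Real.exp 1 * Real.exp 1 := by
      rw [← Real.exp_add]
      norm_num
    rw [e2]
    nlinarith [Real.exp_pos 1]
  -- the exceptions
  have hsub : (Icc ⌈-R⌉ ⌊R⌋).filter (fun r : ℤ => ¬ Good A B D ε k R r) ⊆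
      {0} ∪ ((Icc ⌈-(R / 2)⌉ ⌊R / 2⌋).filter (fun a : ℤ => ¬ Tr (16 * D.natAbs) (PD D) ε' (k + 3) R a)).image
        (fun a => 2 * a) := by
    intro r hr
    rw [mem_filter, mem_box2] at hr
    obtain ⟨hrR, hr⟩ := hr
    rw [mem_union, mem_singleton]
    by_cases hr0 : r = 0
    · left
      exact hr0
    right
    rcases Int.emod_two_eq_zero_or_one r with hpar | hpar
    · obtain ⟨a, rfl⟩ : ∃ a, r = 2 * a := ⟨r / 2, by omega⟩
      have ha0 : a ≠ 0 := by
        rintro rfl
        exact hr0 (by ring)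
      have haR : |(a : ℝ)| ≤ R / 2 := by
        push_cast at hrR
        rw [abs_mul, abs_two] at hrR
        linarith
      rw [mem_image]
      refine ⟨a, ?_, rfl⟩
      rw [mem_filter, mem_box2]
      refine ⟨haR, fun hT => hr ⟨?_, ?_⟩⟩
      · obtain ⟨k1, k2, k3⟩ := constant D hD a ha0
        refine ⟨_, k1, k2, k3, fun x hx1 hx2 => ?_⟩
        have hx0 : 0 < x := lt_of_lt_of_le (by positivity) hx1
        have e1 := hT x ((Real.rpow_le_rpow_of_exponent_le hRone (by linarith)).trans hx1)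
          (hx2.trans (Real.rpow_le_rpow_of_exponent_le hRone (by linarith)))
        rw [count_eq h]
        have e2 : piD D (2 * a) x = piP (PD D) a x := by
          rw [piD_eq D a x hx0.le ha0]
          rfl
        rw [e2]
        refine e1.trans ?_
        have hlogx : 1 ≤ Real.log x := by
          have e3 : R ≤ x := by
            calc R = R ^ (1 : ℝ) := (Real.rpow_one R).symm
              _ ≤ R ^ (2 + ε) := Real.rpow_le_rpow_of_exponent_le hRone (by linarith)
              _ ≤ x := hx1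
          have := Real.log_le_log hR0 e3
          linarith
        apply div_le_div_of_nonneg_left (Real.sqrt_nonneg _) (by positivity)
        exact pow_le_pow_right₀ hlogx (by omega)
      · intro hcl
        rw [classes_eq] at hcl
        exact least h a ha0 (R ^ (2 + ε')) (R ^ (2 + ε)) (by positivity)
          (Real.rpow_le_rpow_of_exponent_le hRone (by linarith)) (h3' R hR3 a ha0 haR hcl hT)
    · exfalso
      apply hr
      have hc0 : classes D r = 0 := by
        unfold classes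
        rw [if_neg (by omega)]
      refine ⟨⟨0, le_rfl, ?_, ?_, fun x hx1 hx2 => ?_⟩, fun hcl => ?_⟩
      · rw [hc0]
        simp
      · unfold IsConstant
        rw [hc0]
        simp
      · rw [count_eq h, piD_zero D r x hpar]
        have hx0 : 0 < x := lt_of_lt_of_le (by positivity) hx1
        have e3 : R ≤ x := by
          calc R = R ^ (1 : ℝ) := (Real.rpow_one R).symm
            _ ≤ R ^ (2 + ε) := Real.rpow_le_rpow_of_exponent_le hRone (by linarith)
            _ ≤ x := hx1
        have := Real.log_le_log hR0 e3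
        have hlogx : 0 < Real.log x := by linarith
        simp only [Nat.cast_zero, zero_mul, sub_zero, abs_zero]
        positivity
      · omega
  have hcard : (exceptions A B D ε k R : ℝ) ≤ 1 + R / Real.log R ^ (k + 3) := by
    have e1 := (card_le_card hsub).trans ((card_union_le _ _).trans (add_le_add_right card_image_le _))
    rw [card_singleton] at e1
    unfold exceptions
    have e2 : ((((Icc ⌈-R⌉ ⌊R⌋).filter (fun r : ℤ => ¬ Good A B D ε k R r)).card : ℕ) : ℝ) ≤
        1 + (((Icc ⌈-(R / 2)⌉ ⌊R / 2⌋).filter (fun a : ℤ => ¬ Tr (16 * D.natAbs) (PD D) ε' (k + 3) R a)).card : ℝ) := by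
      exact_mod_cast e1
    linarith
  refine hcard.trans ?_
  have hl0 : 0 < Real.log R := by linarith
  have e0 : R / Real.log R ^ (k + 3) ≤ R / Real.log R ^ (k + 1) := by
    apply div_le_div_of_nonneg_left hR0.le (by positivity)
    exact pow_le_pow_right₀ (by linarith) (by omega)
  have e1 : R / Real.log R ^ (k + 1) ≤ 1 / 2 * (R / Real.log R ^ k) := by
    rw [pow_succ, ← div_div, div_le_iff₀ hl0]
    have : 0 ≤ R / Real.log R ^ k := by positivity
    nlinarith
  have e2 : 1 ≤ 1 / 2 * (R / Real.log R ^ k) := by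
    rw [mul_div_assoc', le_div_iff₀ (by positivity)]
    linarith
  linarith

end Pool.Agent.Results.MP_d74fca_nt.GaussianCMCurves
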