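import Pool.Agent.U62.RB.Sup

/-!
# The normal law for the number of the primes with a prescribed trace of Frobenius

The conjecture of Lang and Trotter rests on a probabilistic model: the events `a_p(E) = r` for the different primes `p` should
behave like independent events.  In such a model the number of the primes `p ∈ P` with `a_p(E) = r` is asymptotically normal
as soon as its variance is large.  We prove this for random members of arbitrary polynomial families of elliptic curves
`E_c : y² = x³ + A(c) x + B(c)`, `A, B ∈ ℤ[c_1, ..., c_n]`, for an arbitrary finite set `P` of primes, uniformly in everything, and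
more generally for the sums `∑_{p ∈ P} f_p(a_p(E_c))` of arbitrary functions `f_p` of absolute value at most one (taken over the
primes of good reduction) whose variance in the independent model is large; the functions may be concentrated on rare events.

For the family of all curves `y² = x³ + a x + b` and the trace `0` no hypothesis on variances is left: the number of the
supersingular primes in `P` is asymptotically normal if the sum of `1 / p` over the `p ∈ P` with `p ≡ 2 (mod 3)` is large, and thus
in particular for the set of all primes up to `y`, as `y` tends to infinity.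
-/

set_option autoImplicit false

namespace Pool.Agent.Results.MP_d74fca_nt.NormalLaw

open Finset MeasureTheory ProbabilityTheory

/-- The number of the solutions of `y² = x³ + a x + b` modulo `p`. -/
noncomputable def affinePoints (a b : ℤ) (p : ℕ) : ℕ :=
  ((range p ×ˢ range p).filter fun z : ℕ × ℕ =>
    (p : ℤ) ∣ (z.2 : ℤ) ^ 2 - ((z.1 : ℤ) ^ 3 + a * z.1 + b)).card

/-- The prime `p` does not divide `2 (4 a³ + 27 b²)`, so that `E : y² = x³ + a x + b` has good reduction at `p`. -/
def IsGood (a b : ℤ) (p : ℕ) : Prop := ¬ (p : ℤ) ∣ 2 * (4 * a ^ 3 + 27 * b ^ 2)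

/-- The trace of Frobenius `a_p(E) = p + 1 - #E(𝔽_p)`. -/
noncomputable def trace (a b : ℤ) (p : ℕ) : ℤ := p - affinePoints a b p

open scoped Classical in
/-- The value of the function `f` at the trace of Frobenius (`0` if `p` is not a prime of good reduction). -/
noncomputable def value (f : ℤ → ℝ) (p : ℕ) (a b : ℤ) : ℝ := if IsGood a b p then f (trace a b p) else 0

open scoped Classical in
/-- The number of the `p` in `P` of good reduction of `y² = x³ + a x + b` with `a_p = r`. -/
noncomputable def count (a b r : ℤ) (P : Finset ℕ) : ℕ := (P.filter fun p => IsGood a b p ∧ trace a b p = r).card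

/-- The mean value of `g(A(c), B(c))` over the residue vectors `c` modulo `p`. -/
noncomputable def localMean {n : ℕ} (A B : MvPolynomial (Fin n) ℤ) (g : ℤ → ℤ → ℝ) (p : ℕ) : ℝ :=
  (∑ t ∈ Fintype.piFinset fun _ : Fin n => range p, g (MvPolynomial.eval (fun l => (t l : ℤ)) A)
    (MvPolynomial.eval (fun l => (t l : ℤ)) B)) / (p : ℝ) ^ n

/-- The expectation in the independent model: the sum of the mean values of `f_p(a_p)` over the residue vectors modulo `p`. -/
noncomputable def mean {n : ℕ} (A B : MvPolynomial (Fin n) ℤ) (f : ℕ → ℤ → ℝ) (P : Finset ℕ) : ℝ :=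
  ∑ p ∈ P, localMean A B (value (f p) p) p

/-- The variance in the independent model: the sum of the variances of `f_p(a_p)` over the residue vectors modulo `p`. -/
noncomputable def variance {n : ℕ} (A B : MvPolynomial (Fin n) ℤ) (f : ℕ → ℤ → ℝ) (P : Finset ℕ) : ℝ :=
  ∑ p ∈ P, (localMean A B (fun a b => value (f p) p a b ^ 2) p - localMean A B (value (f p) p) p ^ 2)

/-- The proportion of the integer vectors `c` with coordinates of absolute value at most `H` which have the property `Q`. -/
noncomputable def proportion {n : ℕ} (H : ℕ) (Q : (Fin n → ℤ) → Prop) : ℝ :=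
  ({c : Fin n → ℤ | (∀ i, |c i| ≤ H) ∧ Q c}.ncard : ℝ) / (2 * H + 1 : ℝ) ^ n

open scoped Classical in
/-- The proportion of the supersingular curves `y² = x³ + a x + b` modulo `p`: good reduction and trace `0`. -/
noncomputable def supersingular (p : ℕ) : ℝ :=
  (((range p ×ˢ range p).filter fun t : ℕ × ℕ => IsGood t.1 t.2 p ∧ trace t.1 t.2 p = 0).card : ℝ) / (p : ℝ) ^ 2

/-- The distribution function of the standard normal law. -/
noncomputable def normal (u : ℝ) : ℝ := (gaussianReal 0 1).real (Set.Iic u)

theorem points_congr (p : ℕ) {a a' b b' : ℤ} (ha : (p : ℤ) ∣ a - a') (hb : (p : ℤ) ∣ b - b') :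
    affinePoints a b p = affinePoints a' b' p := by
  unfold affinePoints
  congr 1
  apply filter_congr
  intro xy _
  have h : (p : ℤ) ∣ ((xy.2 : ℤ) ^ 2 - ((xy.1 : ℤ) ^ 3 + a * xy.1 + b)) -
      ((xy.2 : ℤ) ^ 2 - ((xy.1 : ℤ) ^ 3 + a' * xy.1 + b')) := by
    have e : ((xy.2 : ℤ) ^ 2 - ((xy.1 : ℤ) ^ 3 + a * xy.1 + b)) -
      ((xy.2 : ℤ) ^ 2 - ((xy.1 : ℤ) ^ 3 + a' * xy.1 + b')) = -((a - a') * xy.1 + (b - b')) := by ring
    rw [e]
    exact (dvd_add (ha.mul_right _) hb).neg_right
  exact (dvd_iff_dvd_of_dvd_sub h)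

theorem good_congr (p : ℕ) {a a' b b' : ℤ} (ha : (p : ℤ) ∣ a - a') (hb : (p : ℤ) ∣ b - b') :
    IsGood a b p ↔ IsGood a' b' p := by
  unfold IsGood
  have h : (p : ℤ) ∣ 2 * (4 * a ^ 3 + 27 * b ^ 2) - 2 * (4 * a' ^ 3 + 27 * b' ^ 2) := by
    have e : 2 * (4 * a ^ 3 + 27 * b ^ 2) - 2 * (4 * a' ^ 3 + 27 * b' ^ 2) =
      (a - a') * (8 * (a ^ 2 + a * a' + a' ^ 2)) + (b - b') * (54 * (b + b')) := by ring
    rw [e]
    exact dvd_add (ha.mul_right _) (hb.mul_right _)
  exact not_congr (dvd_iff_dvd_of_dvd_sub h)

theorem value_congr (f : ℤ → ℝ) (p : ℕ) {a a' b b' : ℤ} (ha : (p : ℤ) ∣ a - a') (hb : (p : ℤ) ∣ b - b') :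
    value f p a b = value f p a' b' := by
  unfold value trace
  rw [points_congr p ha hb]
  by_cases h : IsGood a b p
  · rw [if_pos h, if_pos ((good_congr p ha hb).1 h)]
  · rw [if_neg h, if_neg fun h' => h ((good_congr p ha hb).2 h')]

theorem eval_congr {n : ℕ} (f : MvPolynomial (Fin n) ℤ) (p : ℕ) {c d : Fin n → ℤ} (h : ∀ l, (p : ℤ) ∣ c l - d l) :
    (p : ℤ) ∣ MvPolynomial.eval c f - MvPolynomial.eval d f := by
  induction f using MvPolynomial.induction_on with
  | C z => simp
  | add f g hf hg =>
    rw [map_add, map_add]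
    have e : MvPolynomial.eval c f + MvPolynomial.eval c g - (MvPolynomial.eval d f + MvPolynomial.eval d g) =
        (MvPolynomial.eval c f - MvPolynomial.eval d f) + (MvPolynomial.eval c g - MvPolynomial.eval d g) := by ring
    rw [e]
    exact dvd_add hf hg
  | mul_X f i hf =>
    rw [map_mul, map_mul, MvPolynomial.eval_X, MvPolynomial.eval_X]
    have e : MvPolynomial.eval c f * c i - MvPolynomial.eval d f * d i =
        (MvPolynomial.eval c f - MvPolynomial.eval d f) * c i + MvPolynomial.eval d f * (c i - d i) := by ring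
    rw [e]
    exact dvd_add (hf.mul_right _) ((h i).mul_left _)

theorem value_abs {f : ℤ → ℝ} (hf : ∀ t, |f t| ≤ 1) (p : ℕ) (a b : ℤ) : |value f p a b| ≤ 1 := by
  unfold value
  split_ifs
  · exact hf _
  · rw [abs_zero]
    exact zero_le_one

theorem general (n : ℕ) (u : ℝ) {ε : ℝ} (hε : 0 < ε) : ∃ K : ℕ,
    ∀ (A B : MvPolynomial (Fin n) ℤ) (f : ℕ → ℤ → ℝ) (P : Finset ℕ) (y H : ℕ),
      (∀ p ∈ P, p.Prime ∧ p ≤ y) → (∀ p ∈ P, ∀ t, |f p t| ≤ 1) → K ≤ variance A B f P → y ^ K ≤ H →
        |proportion H (fun c => ∑ p ∈ P, value (f p) p (MvPolynomial.eval c A) (MvPolynomial.eval c B) ≤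
            mean A B f P + u * √(variance A B f P)) - normal u| ≤ ε := by
  obtain ⟨K, hK⟩ := Pool.Agent.U62.RB.normal_fun n u hε
  refine ⟨K, fun A B f P y H hP hf hV hH => ?_⟩
  have h := hK (fun p c => value (f p) p (MvPolynomial.eval c A) (MvPolynomial.eval c B)) P 1 y H one_pos hP
    (fun p _ c c' hc => value_congr (f p) p (eval_congr A p hc) (eval_congr B p hc))
    (fun p hp c => value_abs (hf p hp) p _ _) (by
      rw [one_pow, mul_one]
      exact hV) hH
  exact h

theorem dens_eq (p : ℕ) : Pool.Agent.U62.RB.dens (Pool.Agent.U62.RB.Sup p) p = supersingular p := by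
  classical
  unfold Pool.Agent.U62.RB.dens supersingular
  congr 2
  refine Finset.card_bij (fun t _ => (t 0, t 1)) ?_ ?_ ?_
  · intro t ht
    rw [Finset.mem_filter, Fintype.mem_piFinset] at ht
    rw [Finset.mem_filter, Finset.mem_product]
    exact ⟨⟨ht.1 0, ht.1 1⟩, ht.2⟩
  · intro t _ t' _ h
    rw [Prod.mk.injEq] at h
    funext l
    fin_cases l
    · exact h.1
    · exact h.2
  · intro q hq
    rw [Finset.mem_filter, Finset.mem_product] at hq
    refine ⟨![q.1, q.2], ?_, rfl⟩
    rw [Finset.mem_filter, Fintype.mem_piFinset]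
    refine ⟨fun l => ?_, ?_⟩
    · fin_cases l
      · exact hq.1.1
      · exact hq.1.2
    · exact hq.2

theorem variance_lower (P : Finset ℕ) (hP : ∀ p ∈ P, p.Prime) :
    (∑ p ∈ P.filter (fun p => p % 3 = 2), (1 : ℝ) / p - 64) / 16 ≤
      ∑ p ∈ P, supersingular p * (1 - supersingular p) := by
  classical
  have h01 : ∀ p ∈ P, 0 ≤ supersingular p ∧ supersingular p ≤ 1 := by
    intro p hp
    have : NeZero p := ⟨(hP p hp).ne_zero⟩
    rw [← dens_eq, ← Pool.Agent.U62.RB.pr_ev]
    exact ⟨Pool.Agent.U62.RB.pr_nonneg _ _, Pool.Agent.U62.RB.pr_le _ _⟩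
  have h1 : ∑ p ∈ P.filter (fun p => p % 3 = 2), ((1 : ℝ) / p - (if p < 64 then 1 else 0)) / 16 ≤
      ∑ p ∈ P.filter (fun p => p % 3 = 2), supersingular p * (1 - supersingular p) := by
    refine Finset.sum_le_sum fun p hp => ?_
    rw [Finset.mem_filter] at hp
    have hpp := hP p hp.1
    have hp1 : (1 : ℝ) ≤ p := by exact_mod_cast hpp.one_lt.le
    obtain ⟨h2, h3⟩ := h01 p hp.1
    by_cases h64 : p < 64
    · rw [if_pos h64]
      have h4 : (1 : ℝ) / p ≤ 1 := by
        rw [div_le_one (by linarith)]
        exact hp1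
      nlinarith
    · rw [if_neg h64]
      have h4 := Pool.Agent.U62.RB.dens_sup_lower hpp hp.2 (by omega)
      have h5 := Pool.Agent.U62.RB.dens_sup_upper hpp (by omega)
      rw [dens_eq] at h4 h5
      have h6 : (1 : ℝ) / (2 * p) = 1 / p / 2 := by
        field_simp
      rw [h6] at h4
      have h7 : (0 : ℝ) ≤ 1 / p := by positivity
      nlinarith
  have h2 : ∑ p ∈ P.filter (fun p => p % 3 = 2), supersingular p * (1 - supersingular p) ≤
      ∑ p ∈ P, supersingular p * (1 - supersingular p) := by
    refine Finset.sum_le_sum_of_subset_of_nonneg (Finset.filter_subset _ _) fun p hp _ => ?_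
    obtain ⟨h3, h4⟩ := h01 p hp
    exact mul_nonneg h3 (by linarith)
  refine le_trans ?_ (h1.trans h2)
  rw [← Finset.sum_div, Finset.sum_sub_distrib]
  have h3 : ∑ p ∈ P.filter (fun p => p % 3 = 2), (if p < 64 then (1 : ℝ) else 0) ≤ 64 := by
    rw [← Finset.sum_filter, Finset.sum_const, nsmul_eq_mul, mul_one]
    have : ((P.filter fun p => p % 3 = 2).filter fun p => p < 64).card ≤ 64 := by
      calc ((P.filter fun p => p % 3 = 2).filter fun p => p < 64).card ≤ (range 64).card := by
            refine Finset.card_le_card fun p hp => ?_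
            rw [Finset.mem_filter] at hp
            exact Finset.mem_range.2 hp.2
        _ = 64 := Finset.card_range 64
    exact_mod_cast this
  gcongr

theorem primes_class (K : ℝ) : ∃ Y : ℕ, ∀ y, Y ≤ y →
    K ≤ ∑ p ∈ ((range (y + 1)).filter fun p => p.Prime).filter (fun p => p % 3 = 2), (1 : ℝ) / p := by
  obtain ⟨Y, hY⟩ := Pool.Agent.U62.RB.sum_class (q := 3) (a := 2) (by decide) K
  refine ⟨Y, fun y hy => (hY y hy).trans ?_⟩
  refine Finset.sum_le_sum_of_subset_of_nonneg ?_ fun p _ _ => by positivity
  intro p hp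
  rw [Finset.mem_filter] at hp
  rw [Finset.mem_filter, Finset.mem_filter]
  refine ⟨⟨hp.1, hp.2.1⟩, ?_⟩
  have h := hp.2.2.1
  have h2 : ((p : ℕ) : ZMod 3) = ((2 : ℕ) : ZMod 3) := by exact_mod_cast h
  rw [ZMod.natCast_eq_natCast_iff'] at h2
  exact h2

/-- **The normal law for the primes with prescribed traces of Frobenius.**
(1) For all `n`, `u` and `ε > 0` there is a `K` with the following property. Let `E_c : y² = x³ + A(c) x + B(c)` be a polynomial
family with `n` parameters, `P` a finite set of primes `p ≤ y`, `f_p : ℤ → [-1, 1]` arbitrary functions (for example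
the indicator function of `{r}` for all `p`, for which the sum below is the number of the `p ∈ P` with `a_p(E_c) = r`), and suppose
that the variance of the independent model is at least `K`. Then, for every `H ≥ y ^ K`, the proportion of the `c` with
`|c_j| ≤ H` for which `∑_{p ∈ P} f_p(a_p(E_c))` (primes of good reduction) is at most `mean + u √variance` differs from the
value `Φ(u)` of the normal distribution function by at most `ε`.
(2) For all `u` and `ε > 0` there is a `K` such that for every finite set `P` of primes `p ≤ y` for which the sum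
of `1 / p` over the `p ∈ P`, `p ≡ 2 (mod 3)`, is at least `K` and every `H ≥ y ^ K` the proportion of the `(a, b)`,
`|a|, |b| ≤ H`, for which the number of the supersingular primes of `y² = x³ + a x + b` in `P` is at
most `∑ d_p + u √(∑ d_p (1 - d_p))` differs from `Φ(u)` by at most `ε`; here `d_p` is the proportion of the supersingular
curves modulo `p`.
(3) The same holds for the set of all primes up to `y`, for all sufficiently large `y`. -/
theorem result (u ε : ℝ) (hε : 0 < ε) :
    (∀ n : ℕ, ∃ K : ℕ, ∀ (A B : MvPolynomial (Fin n) ℤ) (f : ℕ → ℤ → ℝ) (P : Finset ℕ) (y H : ℕ),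
      (∀ p ∈ P, p.Prime ∧ p ≤ y) → (∀ p ∈ P, ∀ t, |f p t| ≤ 1) → K ≤ variance A B f P → y ^ K ≤ H →
        |proportion H (fun c => ∑ p ∈ P, value (f p) p (MvPolynomial.eval c A) (MvPolynomial.eval c B) ≤
            mean A B f P + u * √(variance A B f P)) - normal u| ≤ ε) ∧
    (∃ K : ℕ, ∀ (P : Finset ℕ) (y H : ℕ), (∀ p ∈ P, p.Prime ∧ p ≤ y) →
      K ≤ ∑ p ∈ P.filter (fun p => p % 3 = 2), (1 : ℝ) / p → y ^ K ≤ H →
        |proportion H (fun c : Fin 2 → ℤ => (count (c 0) (c 1) 0 P : ℝ) ≤ ∑ p ∈ P, supersingular p +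
            u * √(∑ p ∈ P, supersingular p * (1 - supersingular p))) - normal u| ≤ ε) ∧
    (∃ K Y : ℕ, ∀ y H : ℕ, Y ≤ y → y ^ K ≤ H →
        |proportion H (fun c : Fin 2 → ℤ => (count (c 0) (c 1) 0 ((range (y + 1)).filter fun p => p.Prime) : ℝ) ≤
            ∑ p ∈ (range (y + 1)).filter (fun p => p.Prime), supersingular p +
            u * √(∑ p ∈ (range (y + 1)).filter (fun p => p.Prime), supersingular p * (1 - supersingular p))) -
              normal u| ≤ ε) := by
  classical
  have h2 : ∃ K : ℕ, ∀ (P : Finset ℕ) (y H : ℕ), (∀ p ∈ P, p.Prime ∧ p ≤ y) →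
      K ≤ ∑ p ∈ P.filter (fun p => p % 3 = 2), (1 : ℝ) / p → y ^ K ≤ H →
        |proportion H (fun c : Fin 2 → ℤ => (count (c 0) (c 1) 0 P : ℝ) ≤ ∑ p ∈ P, supersingular p +
            u * √(∑ p ∈ P, supersingular p * (1 - supersingular p))) - normal u| ≤ ε := by
    obtain ⟨K, hK⟩ := Pool.Agent.U62.RB.normal_per 2 u hε
    refine ⟨16 * K + 64, fun P y H hP hV hH => ?_⟩
    have hy : 0 < y := by
      rcases Nat.eq_zero_or_pos y with h0 | h0
      · exfalso
        have hPe : P = ∅ := by
          rw [Finset.eq_empty_iff_forall_notMem]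
          intro p hp
          have := (hP p hp).1.pos
          have := (hP p hp).2
          omega
        rw [hPe] at hV
        simp only [Finset.filter_empty, Finset.sum_empty] at hV
        push_cast at hV
        have : (0 : ℝ) ≤ K := Nat.cast_nonneg K
        linarith
      · exact h0
    have h3 := variance_lower P fun p hp => (hP p hp).1
    have h4 := hK Pool.Agent.U62.RB.Sup P y H hP (fun p _ c c' hc h => by
      refine ⟨fun h' => h.1 ?_, ?_⟩
      · exact not_not.1 fun h'' => ((good_congr p (hc 0) (hc 1)).1 h'') h'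
      · have e := points_congr p (hc 0) (hc 1)
        have h5 := h.2
        change (p : ℤ) - affinePoints (c 0) (c 1) p = 0 at h5
        change (p : ℤ) - affinePoints (c' 0) (c' 1) p = 0
        rw [← e]
        exact h5) (by
      simp only [dens_eq]
      refine le_trans ?_ h3
      rw [le_div_iff₀ (by norm_num)]
      push_cast at hV
      linarith) ((Nat.pow_le_pow_right hy (by omega)).trans hH)
    simp only [dens_eq] at h4
    have e : ∀ c : Fin 2 → ℤ, count (c 0) (c 1) 0 P = (P.filter fun p => Pool.Agent.U62.RB.Sup p c).card := by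
      intro c
      unfold count
      refine congrArg Finset.card ?_
      ext p
      rw [Finset.mem_filter, Finset.mem_filter]
      exact Iff.rfl
    simp only [e]
    exact h4
  refine ⟨fun n => general n u hε, h2, ?_⟩
  obtain ⟨K, hK⟩ := h2
  obtain ⟨Y, hY⟩ := primes_class K
  refine ⟨K, Y, fun y H hy hH => hK _ y H (fun p hp => ?_) (hY y hy) hH⟩
  rw [Finset.mem_filter, Finset.mem_range] at hp
  exact ⟨hp.2, by omega⟩

end Pool.Agent.Results.MP_d74fca_nt.NormalLaw
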