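import Pool.Agent.U471.DQ.Fam
import Pool.Agent.U471.DQ.CM

/-!
# Primes with a given nonzero Frobenius trace for all the curves `y² = x³ - D x` with `D` close to almost all values of a real
polynomial, in terms of the primes of the form `(h / 2)² + b²`

From Mathlib: `Polynomial.eval`, `Polynomial.coeff`, `Polynomial.natDegree`: real polynomials; `Nat.Prime`: primes;
`IsAlgebraic ℚ`: algebraic numbers.

Method: Weyl's inequality without losses for all the coefficients at the same time (an inverse theorem, from the starting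
files for the top coefficient), a discrete Fejer kernel for the integer parts, uniform distribution
in residue classes with a power saving, high moments in terms of the variances (for rare events). The main term is
evaluated with Jacobsthal's theorem (from the starting files, `Pool.Agent.H304R2.EC.Points`) and the uniqueness of the
representation of a prime as a sum of two squares.
-/

set_option autoImplicit false

namespace Pool.Agent.Results.MP_d74fca_nt.QuarticTwists

open Finset

/-- The polynomial `f` is not on a major arc, at the scale `N` and with the parameter `R`: for every integer `l ≠ 0` with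
`|l| ≤ R` there is `1 ≤ j ≤ d` such that `l` times the coefficient of `f` at `X ^ j` has a distance of more than
`R / N ^ j` from all the integers. -/
def Generic (d N : ℕ) (R : ℝ) (f : Polynomial ℝ) : Prop :=
  ∀ l : ℤ, l ≠ 0 → (|l| : ℝ) ≤ R → ∃ j : ℕ, 1 ≤ j ∧ j ≤ d ∧ ∀ b : ℤ, R / (N : ℝ) ^ j < |(l : ℝ) * f.coeff j - b|

/-- `α` has a finite irrationality exponent. -/
def FiniteType (α : ℝ) : Prop := ∃ (w : ℕ) (c : ℝ), 0 < c ∧ ∀ q : ℕ, 1 ≤ q → ∀ a : ℤ, c / (q : ℝ) ^ w ≤ |q * α - a|

/-- The number of the solutions `(x, y)` of `y² = x³ - D x` modulo `p`. -/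
def points (p : ℕ) (D : ℤ) : ℕ :=
  ((range p ×ˢ range p).filter (fun xy : ℕ × ℕ => (p : ℤ) ∣ (xy.2 : ℤ) ^ 2 - ((xy.1 : ℤ) ^ 3 - D * xy.1))).card

/-- `p` does not divide `2 D`, and the trace `p + 1 - #E(F_p) = p - points p D` of `E : y² = x³ - D x` at `p` is `h`. -/
def HasTrace (h : ℤ) (p : ℕ) (D : ℤ) : Prop := ¬ (p : ℤ) ∣ 2 * D ∧ (p : ℤ) - points p D = h

open Classical in
/-- The number of the primes `p ≤ x` with the trace `h`, for `E : y² = x³ - D x`. -/
noncomputable def traceCount (D h : ℤ) (x : ℕ) : ℕ :=
  (((range (x + 1)).filter Nat.Prime).filter (fun p => HasTrace h p D)).card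

open Classical in
/-- The number of the primes `p ≤ x` such that `4 p - h²` is the square of an even number; for odd `h` it is `0`, and for even
`h` it is the number of the primes `p ≤ x` of the form `(h / 2)² + b²`. -/
noncomputable def primeSquares (h : ℤ) (x : ℕ) : ℕ :=
  (((range (x + 1)).filter Nat.Prime).filter (fun p : ℕ => ∃ b : ℕ, h ^ 2 + (2 * (b : ℤ)) ^ 2 = 4 * (p : ℤ))).card

open Classical in
/-- the number of the residues with the trace `h` -/
lemma residues {p : ℕ} (hp : p.Prime) (h : ℤ) (hh : h ≠ 0) :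
    4 * (((Fintype.piFinset (fun _ : Fin 1 => range p)).filter (fun ν => HasTrace h p (ν 0 : ℤ))).card : ℝ) =
      if p ≠ 2 ∧ ∃ b : ℕ, h ^ 2 + (2 * (b : ℤ)) ^ 2 = 4 * p then (p : ℝ) - 1 else 0 := by
  have : Fact p.Prime := ⟨hp⟩
  by_cases h2 : p = 2
  · subst h2
    rw [if_neg (by simp), filter_false_of_mem, card_empty, Nat.cast_zero, mul_zero]
    rintro ν _ ⟨h1, _⟩
    exact h1 (Dvd.intro _ rfl)
  · have e1 : ((Fintype.piFinset (fun _ : Fin 1 => range p)).filter (fun ν => HasTrace h p (ν 0 : ℤ))).card =
        (univ.filter (fun a : ZMod p => a ≠ 0 ∧ Pool.Agent.H304R2.EC.Pts.SS a = -h)).card := by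
      have h2' : (2 : ZMod p) ≠ 0 := Pool.Agent.H304R2.EC.Pts.two_ne h2
      have key : ∀ D : ℤ, HasTrace h p D ↔ ((D : ZMod p) ≠ 0 ∧ Pool.Agent.H304R2.EC.Pts.SS (D : ZMod p) = -h) := by
        intro D
        unfold HasTrace
        have h3 : (p : ℤ) - points p D = - Pool.Agent.H304R2.EC.Pts.SS (D : ZMod p) := Pool.Agent.U471.DQ.CM.points_eq h2 D
        rw [h3]
        have h4 : (p : ℤ) ∣ 2 * D ↔ (D : ZMod p) = 0 := by
          rw [← ZMod.intCast_zmod_eq_zero_iff_dvd]
          push_cast
          rw [mul_eq_zero]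
          exact or_iff_right h2'
        rw [h4]
        constructor
        · rintro ⟨h5, h6⟩
          exact ⟨h5, by omega⟩
        · rintro ⟨h5, h6⟩
          exact ⟨h5, by omega⟩
      refine card_bij' (fun ν _ => ((ν 0 : ℕ) : ZMod p)) (fun a _ => fun _ => a.val) ?_ ?_ ?_ ?_
      · intro ν hν
        rw [mem_filter] at hν
        rw [mem_filter]
        have h5 := (key _).1 hν.2
        refine ⟨mem_univ _, ?_⟩
        simpa using h5
      · intro a ha
        rw [mem_filter] at ha
        rw [mem_filter, Fintype.mem_piFinset]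
        refine ⟨fun _ => mem_range.2 (ZMod.val_lt a), (key _).2 ?_⟩
        have h5 : (((a.val : ℕ) : ℤ) : ZMod p) = a := by
          push_cast
          exact ZMod.natCast_zmod_val a
        rw [h5]
        exact ha.2
      · intro ν hν
        rw [mem_filter, Fintype.mem_piFinset] at hν
        funext i
        have hi : i = 0 := Subsingleton.elim _ _
        subst hi
        exact ZMod.val_cast_of_lt (mem_range.1 (hν.1 0))
      · intro a _
        exact ZMod.natCast_zmod_val a
    rw [e1]
    have h3 := Pool.Agent.U471.DQ.CM.SS_count_eq h2 (-h) (neg_ne_zero.2 hh)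
    rw [neg_sq] at h3
    have h4 : (4 : ℝ) * ((univ.filter (fun a : ZMod p => a ≠ 0 ∧ Pool.Agent.H304R2.EC.Pts.SS a = -h)).card : ℝ) =
        ((4 * ((univ.filter (fun a : ZMod p => a ≠ 0 ∧ Pool.Agent.H304R2.EC.Pts.SS a = -h)).card : ℤ) : ℤ) : ℝ) := by
      push_cast
      rfl
    rw [h4, h3]
    by_cases hx : ∃ b : ℕ, h ^ 2 + (2 * (b : ℤ)) ^ 2 = 4 * p
    · rw [if_pos hx, if_pos ⟨h2, hx⟩]
      push_cast
      ring
    · rw [if_neg hx, if_neg (fun h' => hx h'.2)]
      norm_num

lemma sum_inv_le (s : Finset ℕ) (x : ℕ) (hs : ∀ p ∈ s, 1 ≤ p ∧ p ≤ x) : ∑ p ∈ s, 1 / (p : ℝ) ≤ 1 + Real.log x := by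
  have h1 : ∑ p ∈ s, 1 / (p : ℝ) ≤ ∑ p ∈ Icc 1 x, 1 / (p : ℝ) := by
    apply sum_le_sum_of_subset_of_nonneg
    · intro p hp
      rw [mem_Icc]
      exact hs p hp
    · intro p _ _
      positivity
  have h2 := harmonic_le_one_add_log x
  have h3 : ((harmonic x : ℚ) : ℝ) = ∑ p ∈ Icc 1 x, 1 / (p : ℝ) := by
    rw [harmonic_eq_sum_Icc]
    push_cast
    simp [one_div]
  linarith

/-- **(1)** Let `d ≥ 1` be an integer and `δ > 0`. There are `κ > 0` and `C` such that the following holds for all
`N, R ≥ 1` and for all real polynomials `f` of degree at most `d` which are not on a major arc (`Generic`).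

All the integers `0 ≤ n < N` with at most `C N R ^ (- κ)` exceptions are such that for ALL integers `D` with
`|D - f(n)| ≤ R ^ κ`, ALL integers `h ≠ 0` and ALL `x ≤ R ^ κ`: the number of the primes `p ≤ x` at which
`E_D : y² = x³ - D x` has good reduction and the trace `h` is one quarter of the number `Q` of the primes `p ≤ x` of the
form `(h / 2)² + b²`, up to at most `C x ^ δ ((1 + log R) (1 + log R + Q)) ^ (1 / 2)`.

**(2)** If a nonconstant coefficient of `f` has a finite irrationality exponent, then (1) applies with `R = N ^ β`, for some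
`β > 0` and all large `N`. **(3)** This includes irrational algebraic coefficients. -/
theorem result :
    (∀ d : ℕ, 1 ≤ d → ∀ δ : ℝ, 0 < δ → ∃ κ C : ℝ, 0 < κ ∧ 0 < C ∧
      ∀ (N : ℕ) (R : ℝ) (f : Polynomial ℝ), 1 ≤ N → 1 ≤ R → f.natDegree ≤ d → Generic d N R f →
      ∃ E : Finset ℕ, (E.card : ℝ) ≤ C * (N * R ^ (-κ)) ∧ ∀ n : ℕ, n < N → n ∉ E →
        ∀ D : ℤ, |(D : ℝ) - f.eval (n : ℝ)| ≤ R ^ κ → ∀ h : ℤ, h ≠ 0 → ∀ x : ℕ, (x : ℝ) ≤ R ^ κ →
          |(traceCount D h x : ℝ) - primeSquares h x / 4| ≤
            C * ((x : ℝ) ^ δ * √((1 + Real.log R) * (1 + Real.log R + primeSquares h x)))) ∧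
    (∀ (d : ℕ) (f : Polynomial ℝ), (∃ j, 1 ≤ j ∧ j ≤ d ∧ FiniteType (f.coeff j)) →
      ∃ β : ℝ, 0 < β ∧ ∃ N₀ : ℕ, ∀ N : ℕ, N₀ ≤ N → Generic d N ((N : ℝ) ^ β) f) ∧
    (∀ α : ℝ, Irrational α → IsAlgebraic ℚ α → FiniteType α) := by
  classical
  refine ⟨?_, ?_, fun α h h' => Pool.Agent.U471.DQ.finType_alg h h'⟩
  · intro d hd δ hδ
    obtain ⟨κ, C, h1, h1', h3, H⟩ := Pool.Agent.U471.DQ.near_count_fin 1 d hd 3 (by norm_num) δ hδ
    obtain ⟨κ', hκ'⟩ : ∃ κ' : ℝ, κ' = κ / 2 := ⟨_, rfl⟩
    have hκ'0 : 0 < κ' := by rw [hκ']; positivity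
    have hκ2 : κ' + κ' = κ := by rw [hκ']; ring
    refine ⟨κ', C + 1, hκ'0, by linarith, ?_⟩
    intro N R f hN hR hf hgen
    have hR0 : 0 < R := by linarith
    have hlog : 0 ≤ Real.log R := Real.log_nonneg hR
    have hRκ : 1 ≤ R ^ κ := Real.one_le_rpow hR h1.le
    obtain ⟨T, hT⟩ : ∃ T : ℕ, T = ⌊R ^ κ⌋₊ := ⟨_, rfl⟩
    have hTr : (T : ℝ) ≤ R ^ κ := by rw [hT]; exact Nat.floor_le (by positivity)
    obtain ⟨S, hS⟩ : ∃ S : Finset ℤ, S = Icc (-(T : ℤ)) T := ⟨_, rfl⟩
    have hSc : (S.card : ℝ) ≤ 3 * R ^ κ := by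
      rw [hS, Int.card_Icc]
      have e1 : ((T : ℤ) + 1 - -(T : ℤ)).toNat = 2 * T + 1 := by omega
      rw [e1]
      push_cast
      linarith
    have hgen' : Pool.Agent.U471.DQ.Gen d N R (fun _ : Fin 1 => f) := by
      intro l hl hlR
      have hl0 : l 0 ≠ 0 := by
        intro h0
        apply hl
        funext i
        have hi : i = 0 := Subsingleton.elim _ _
        subst hi
        exact h0
      obtain ⟨j, h4, h5, h6⟩ := hgen (l 0) hl0 (hlR 0)
      refine ⟨j, h4, h5, fun b => ?_⟩
      rw [Fin.sum_univ_one]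
      exact h6 b
    obtain ⟨E, _, hE2, hE3⟩ := H N R (fun _ => f) hN hR (fun _ => hf) hgen' ℤ S hSc
      (fun h p z => HasTrace h p (z 0)) (by
        intro h p _ u u' hu
        unfold HasTrace
        have e1 : points p (u 0) = points p (u' 0) := Pool.Agent.U471.DQ.CM.points_congr p (hu 0)
        rw [e1]
        have e2 : (p : ℤ) ∣ 2 * u 0 - 2 * u' 0 := by
          have : 2 * u 0 - 2 * u' 0 = 2 * (u 0 - u' 0) := by ring
          rw [this]
          exact (hu 0).mul_left _
        rw [dvd_iff_dvd_of_dvd_sub e2])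
    have hpow : R ^ κ' ≤ R ^ κ := Real.rpow_le_rpow_of_exponent_le hR (by linarith)
    have hroot : 1 ≤ √((1 + Real.log R) * (1 + Real.log R + 0)) := by
      rw [Real.one_le_sqrt]
      nlinarith
    refine ⟨E, ?_, fun n hn hnE D hD h hh x hx => ?_⟩
    · refine hE2.trans ?_
      calc C * (N * R ^ (-κ)) ≤ C * (N * R ^ (-κ')) := by
            apply mul_le_mul_of_nonneg_left _ (by linarith)
            apply mul_le_mul_of_nonneg_left _ (Nat.cast_nonneg _)
            apply Real.rpow_le_rpow_of_exponent_le hR
            linarith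
        _ ≤ (C + 1) * (N * R ^ (-κ')) := by
            apply mul_le_mul_of_nonneg_right _ (by positivity)
            linarith
    · obtain ⟨M, hM⟩ : ∃ M : ℝ, M = Pool.Agent.U471.DQ.mdl (fun p (z : Fin 1 → ℤ) => HasTrace h p (z 0)) x := ⟨_, rfl⟩
      obtain ⟨Q, hQ⟩ : ∃ Q : ℝ, Q = (primeSquares h x : ℝ) := ⟨_, rfl⟩
      have hQ0 : 0 ≤ Q := by rw [hQ]; positivity
      obtain ⟨P, hP⟩ : ∃ P : Finset ℕ, P = ((range (x + 1)).filter Nat.Prime).filter
        (fun p : ℕ => ∃ b : ℕ, h ^ 2 + (2 * (b : ℤ)) ^ 2 = 4 * (p : ℤ)) := ⟨_, rfl⟩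
      -- the main term
      have hM2 : 4 * M = ∑ p ∈ (range (x + 1)).filter Nat.Prime,
          (if p ≠ 2 ∧ ∃ b : ℕ, h ^ 2 + (2 * (b : ℤ)) ^ 2 = 4 * p then (p : ℝ) - 1 else 0) / (p : ℝ) := by
        rw [hM]
        unfold Pool.Agent.U471.DQ.mdl Pool.Agent.U471.DQ.prs Pool.Agent.U471.DQ.bx
        rw [mul_sum]
        apply sum_congr rfl
        intro p hp
        have hp' : p.Prime := (mem_filter.1 hp).2
        rw [← residues hp' h hh, pow_one, mul_div_assoc]
      have hM3 : 4 * M = ∑ p ∈ P, (if p ≠ 2 then 1 - 1 / (p : ℝ) else 0) := by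
        rw [hM2, hP]
        rw [sum_filter (s := (range (x + 1)).filter Nat.Prime)]
        apply sum_congr rfl
        intro p hp
        have hp' : p.Prime := (mem_filter.1 hp).2
        have hp0 : (0 : ℝ) < p := by exact_mod_cast hp'.pos
        by_cases hx : ∃ b : ℕ, h ^ 2 + (2 * (b : ℤ)) ^ 2 = 4 * p
        · by_cases h2 : p = 2
          · simp [h2]
          · rw [if_pos ⟨h2, hx⟩, if_pos hx, if_pos h2]
            field_simp
        · rw [if_neg (fun h' => hx h'.2), if_neg hx, zero_div]
      have hQP : Q = ∑ p ∈ P, (1 : ℝ) := by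
        rw [hQ, sum_const, nsmul_eq_mul, mul_one, hP]
        unfold primeSquares
        rfl
      have hdiff : Q - 4 * M = ∑ p ∈ P, (if p ≠ 2 then 1 / (p : ℝ) else 1) := by
        rw [hM3, hQP, ← sum_sub_distrib]
        apply sum_congr rfl
        intro p _
        split_ifs <;> ring
      have hdiff0 : 0 ≤ Q - 4 * M := by
        rw [hdiff]
        apply sum_nonneg
        intro p _
        split_ifs <;> positivity
      have hdiff1 : Q - 4 * M ≤ 2 + Real.log x := by
        rw [hdiff]
        have h4 : ∀ p ∈ P, (if p ≠ 2 then 1 / (p : ℝ) else 1) ≤ 1 / (p : ℝ) + (if p = 2 then 1 else 0) := by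
          intro p _
          by_cases h2 : p = 2
          · simp [h2]
          · simp [h2]
        refine (sum_le_sum h4).trans ?_
        rw [sum_add_distrib]
        have h5 := sum_inv_le P x (by
          intro p hp
          rw [hP, mem_filter, mem_filter, mem_range] at hp
          exact ⟨hp.1.2.one_le, by omega⟩)
        have h6 : ∑ p ∈ P, (if p = 2 then (1 : ℝ) else 0) ≤ 1 := by
          rw [sum_ite_eq']
          split_ifs <;> norm_num
        linarith
      have hM0 : 0 ≤ M := by
        rw [hM]
        unfold Pool.Agent.U471.DQ.mdl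
        exact sum_nonneg fun p _ => by positivity
      have hMQ : M ≤ Q := by linarith
      by_cases hx0 : x = 0
      · -- no primes
        have e1 : traceCount D h x = 0 := by
          subst hx0
          unfold traceCount
          rw [card_eq_zero]
          apply filter_false_of_mem
          intro p hp _
          rw [mem_filter, mem_range] at hp
          have := hp.2.two_le
          omega
        have e2 : primeSquares h x = 0 := by
          subst hx0
          unfold primeSquares
          rw [card_eq_zero]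
          apply filter_false_of_mem
          intro p hp _
          rw [mem_filter, mem_range] at hp
          have := hp.2.two_le
          omega
        rw [e1, e2, Nat.cast_zero, zero_div, sub_zero, abs_zero]
        have : 0 ≤ C + 1 := by linarith
        positivity
      have hx1 : (1 : ℝ) ≤ x := by exact_mod_cast Nat.one_le_iff_ne_zero.2 hx0
      have hxδ : 1 ≤ (x : ℝ) ^ δ := Real.one_le_rpow hx1 hδ.le
      have hlogx : Real.log x ≤ κ * Real.log R := by
        rw [← Real.log_rpow hR0]
        exact Real.log_le_log (by linarith) (hx.trans hpow)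
      have hlogx' : Real.log x ≤ Real.log R := hlogx.trans (by nlinarith)
      -- the difference of the main terms
      have hsq : 1 + Real.log R ≤ √((1 + Real.log R) * (1 + Real.log R + Q)) := by
        apply Real.le_sqrt_of_sq_le
        nlinarith
      have hfin : ∀ c : ℝ, |c - M| ≤ C * Pool.Agent.U471.DQ.er δ R M x →
          |c - Q / 4| ≤ (C + 1) * ((x : ℝ) ^ δ * √((1 + Real.log R) * (1 + Real.log R + Q))) := by
        intro c hc
        have h5 : |M - Q / 4| ≤ 1 + Real.log R := by
          rw [abs_le]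
          constructor <;> linarith
        have h6 : Pool.Agent.U471.DQ.er δ R M x ≤ (x : ℝ) ^ δ * √((1 + Real.log R) * (1 + Real.log R + Q)) := by
          unfold Pool.Agent.U471.DQ.er
          apply mul_le_mul_of_nonneg_left _ (by positivity)
          apply Real.sqrt_le_sqrt
          apply mul_le_mul_of_nonneg_left _ (by linarith)
          linarith
        have h7 : 1 + Real.log R ≤ (x : ℝ) ^ δ * √((1 + Real.log R) * (1 + Real.log R + Q)) :=
          hsq.trans (le_mul_of_one_le_left (Real.sqrt_nonneg _) hxδ)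
        calc |c - Q / 4| ≤ |c - M| + |M - Q / 4| := abs_sub_le _ _ _
          _ ≤ C * ((x : ℝ) ^ δ * √((1 + Real.log R) * (1 + Real.log R + Q))) +
              (x : ℝ) ^ δ * √((1 + Real.log R) * (1 + Real.log R + Q)) := by
              apply add_le_add
              · exact hc.trans (mul_le_mul_of_nonneg_left h6 (by linarith))
              · exact h5.trans h7
          _ = _ := by ring
      rw [← hQ]
      by_cases hhS : h ∈ S
      · have h7 := hE3 n (mem_range.2 hn) hnE (fun _ => D) (fun _ => hD.trans hpow) h hhS x (hx.trans hpow)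
        rw [← hM] at h7
        have e1 : Pool.Agent.U471.DQ.cnt (fun p (z : Fin 1 → ℤ) => HasTrace h p (z 0)) (fun _ => D) x = traceCount D h x := by
          unfold traceCount Pool.Agent.U471.DQ.cnt Pool.Agent.U471.DQ.prs
          congr!
        rw [e1] at h7
        exact hfin _ h7
      · -- large traces do not occur
        have hlarge : (T : ℤ) < |h| := by
          by_contra hcon
          push Not at hcon
          apply hhS
          rw [hS, mem_Icc]
          exact abs_le.1 hcon
        have hyT : x * x ≤ T := by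
          rw [hT]
          apply Nat.le_floor
          push_cast
          rw [← hκ2, Real.rpow_add hR0]
          exact mul_le_mul hx hx (by positivity) (by positivity)
        have hno : ∀ p : ℕ, p ≤ x → ∀ D : ℤ, ¬ HasTrace h p D := by
          intro p hp D hD
          have h4 : points p D ≤ p * p := by
            unfold points
            refine (card_filter_le _ _).trans ?_
            rw [card_product, card_range]
          have h5 : |h| ≤ (p : ℤ) * p := by
            rw [← hD.2, abs_le]
            have h3 : (points p D : ℤ) ≤ p * p := by exact_mod_cast h4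
            have h4 : (0 : ℤ) ≤ points p D := Int.natCast_nonneg _
            have h5 : (p : ℤ) ≤ p * p := by
              rcases Nat.eq_zero_or_pos p with h0 | h0
              · subst h0
                simp
              · have : (1 : ℤ) ≤ p := by exact_mod_cast h0
                nlinarith
            have h6 : (0 : ℤ) ≤ p := Int.natCast_nonneg _
            constructor <;> linarith
          have h6 : p * p ≤ x * x := Nat.mul_le_mul hp hp
          have h7 : (p : ℤ) * p ≤ T := by exact_mod_cast h6.trans hyT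
          linarith
        have e1 : traceCount D h x = 0 := by
          unfold traceCount
          rw [card_eq_zero]
          apply filter_false_of_mem
          intro p hp hcon
          rw [mem_filter, mem_range] at hp
          exact hno p (by omega) _ hcon
        have e2 : M = 0 := by
          rw [hM]
          unfold Pool.Agent.U471.DQ.mdl
          apply sum_eq_zero
          intro p hp
          unfold Pool.Agent.U471.DQ.prs at hp
          rw [mem_filter, mem_range] at hp
          rw [filter_false_of_mem (fun ν _ hcon => hno p (by omega) _ hcon), card_empty, Nat.cast_zero, zero_div]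
        apply hfin
        rw [e1, e2, Nat.cast_zero, sub_zero, abs_zero]
        exact mul_nonneg (by linarith) (Pool.Agent.U471.DQ.er_nonneg _ _ _ _)
  · intro d f h
    obtain ⟨j, h1, h2, h3⟩ := h
    obtain ⟨β, h4, _, N₀, h5⟩ := Pool.Agent.U471.DQ.gen_of_type d (fun _ : Fin 1 => f)
      (fun i => ⟨j, h1, h2, h3, fun i' hne => absurd (Subsingleton.elim i' i) hne⟩)
    refine ⟨β, h4, N₀, fun N hN l hl hlR => ?_⟩
    obtain ⟨j', h6, h7, h8⟩ := h5 N hN (fun _ => l) (fun h0 => hl (congrFun h0 0)) (fun _ => hlR)
    refine ⟨j', h6, h7, fun b => ?_⟩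
    have h9 := h8 b
    rw [Fin.sum_univ_one] at h9
    exact h9

end Pool.Agent.Results.MP_d74fca_nt.QuarticTwists
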